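import Pool.Agent.Q237.AM.Bas

/-!
# Job MCR of project AM: degrees modulo `p` up to sign
-/

set_option autoImplicit false

open scoped Classical

noncomputable section

namespace Pool.Agent.Q237.AM

open Pool.Agent.H254R3.IN hiding NN
open Pool.Agent.Q17.WR
open Pool.Agent.Q17.AM

/-- the coefficients of `DG` -/
lemma dg_coeff (p : ℕ) [Fact p.Prime] {G : Type} [Group G] {X : Set (G → ℂ)} (hX : X.Finite)
    (k : Cp p) :
    (DG p X).coeff k = (({χ | χ ∈ X ∧ dcl p χ = k} : Set (G → ℂ)).ncard : ℤ) := by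
  haveI : Fintype X := hX.fintype
  unfold DG
  rw [finsum_eq_sum_of_fintype, MonoidAlgebra.coeff_sum, Finsupp.finset_sum_apply]
  simp only [MonoidAlgebra.of_apply, MonoidAlgebra.coeff_single, Finsupp.single_apply]
  rw [Finset.sum_boole]
  have h1 : ({χ | χ ∈ X ∧ dcl p χ = k} : Set (G → ℂ)) =
      Subtype.val '' ((Finset.univ.filter fun x : X => dcl p x.1 = k : Finset X) : Set X) := by
    ext χ
    constructor
    · rintro ⟨h1, h2⟩
      exact ⟨⟨χ, h1⟩, by simpa using h2, rfl⟩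
    · rintro ⟨⟨χ', h1⟩, h2, rfl⟩
      exact ⟨h1, by simpa using h2⟩
  rw [h1, Set.ncard_image_of_injective _ Subtype.val_injective, Set.ncard_coe_finset]

lemma dcl_iso (p : ℕ) [Fact p.Prime] {H K : Type} [Group H] [Group K] (e : H ≃* K)
    (χ : K → ℂ) : dcl p (fun x => χ (e x)) = dcl p χ := by
  unfold dcl
  simp only [map_one]

lemma dg_iso (p : ℕ) [Fact p.Prime] {H K : Type} [Group H] [Fintype H] [Group K] [Fintype K]
    (e : H ≃* K) : DG p (Ip p H) = DG p (Ip p K) := by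
  apply MonoidAlgebra.coeff_injective
  ext k
  rw [dg_coeff p (ip_fin p), dg_coeff p (ip_fin p)]
  norm_cast
  apply ncard_iso e
  intro χ
  rw [Set.mem_setOf_eq, Set.mem_setOf_eq, dcl_iso, ip_iso e]

/-- divisibility in terms of coefficients -/
lemma dvd_coeff {C : Type} [CommGroup C] {n : ℕ} {x : MonoidAlgebra ℤ C}
    (h : ((n : ℕ) : MonoidAlgebra ℤ C) ∣ x) (k : C) : (n : ℤ) ∣ x.coeff k := by
  obtain ⟨y, rfl⟩ := h
  rw [← nsmul_eq_mul]
  change (n : ℤ) ∣ (n • y).coeff k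
  rw [MonoidAlgebra.coeff_smul_apply]
  exact ⟨y.coeff k, by rw [nsmul_eq_mul]⟩

lemma dvd_of_coeff {C : Type} [CommGroup C] [Finite C] {n : ℕ}
    {x : MonoidAlgebra ℤ C} (h : ∀ k : C, (n : ℤ) ∣ x.coeff k) :
    ((n : ℕ) : MonoidAlgebra ℤ C) ∣ x := by
  choose y hy using h
  haveI : Fintype C := Fintype.ofFinite C
  refine ⟨MonoidAlgebra.ofCoeff (Finsupp.equivFunOnFinite.symm y), ?_⟩
  rw [← nsmul_eq_mul]
  apply MonoidAlgebra.coeff_injective
  ext k
  rw [MonoidAlgebra.coeff_smul_apply, nsmul_eq_mul]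
  change x.coeff k = n * y k
  rw [hy k]

/-- the step in the group ring -/
lemma stepC {C : Type} [CommGroup C] [Finite C] {r j : ℕ} (hj : 1 ≤ j)
    (hcop : (Nat.card C).Coprime r) (c₀ : C) (D D' D₁ D₁' : MonoidAlgebra ℤ C)
    (h2 : (r : ℤ) • D₁ = MonoidAlgebra.of ℤ C c₀ *
      (D ^ r - MonoidAlgebra.mapDomain (fun c : C => c ^ r) D) +
      ((r : ℤ) ^ 2) • MonoidAlgebra.mapDomain (fun c : C => c ^ r) D)
    (h3 : (r : ℤ) • D₁' = MonoidAlgebra.of ℤ C c₀ *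
      (D' ^ r - MonoidAlgebra.mapDomain (fun c : C => c ^ r) D') +
      ((r : ℤ) ^ 2) • MonoidAlgebra.mapDomain (fun c : C => c ^ r) D')
    (hD : ∀ k, (r : ℤ) ^ j ∣ D.coeff k - D'.coeff k)
    (hD₁ : ∀ k, (r : ℤ) ^ j ∣ D₁.coeff k - D₁'.coeff k) (k : C) :
    (r : ℤ) ^ (j + 1) ∣ D.coeff k - D'.coeff k := by
  have g1 : (((r : ℕ) : MonoidAlgebra ℤ C) ^ j) ∣ D - D' := by
    rw [← Nat.cast_pow]
    apply dvd_of_coeff
    intro k
    rw [MonoidAlgebra.coeff_sub, Finsupp.sub_apply, Nat.cast_pow]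
    exact hD k
  have g2 : (((r : ℕ) : MonoidAlgebra ℤ C) ^ j) ∣ D₁ - D₁' := by
    rw [← Nat.cast_pow]
    apply dvd_of_coeff
    intro k
    rw [MonoidAlgebra.coeff_sub, Finsupp.sub_apply, Nat.cast_pow]
    exact hD₁ k
  let E : C ≃ C := powCoprime hcop
  let ψ : MonoidAlgebra ℤ C ≃+ MonoidAlgebra ℤ C := MonoidAlgebra.mapDomainAddEquiv ℤ E
  have hψ : ∀ x : MonoidAlgebra ℤ C,
      MonoidAlgebra.mapDomain (fun c : C => c ^ r) x = ψ x := fun x => rfl
  rw [hψ] at h2 h3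
  have h5 : (((r : ℕ) : MonoidAlgebra ℤ C) ^ (j + 1)) ∣ D ^ r - D' ^ r :=
    pow_sub_dvd hj g1
  have hzs : ∀ x : MonoidAlgebra ℤ C, (r : ℤ) • x =
      ((r : ℕ) : MonoidAlgebra ℤ C) * x := by
    intro x
    rw [← nsmul_eq_mul, natCast_zsmul]
  have hzs2 : ∀ x : MonoidAlgebra ℤ C, ((r : ℤ) ^ 2) • x =
      ((r : ℕ) : MonoidAlgebra ℤ C) ^ 2 * x := by
    intro x
    rw [pow_two, mul_smul, hzs, hzs, pow_two, mul_assoc]
  rw [hzs, hzs2] at h2 h3
  -- transport of divisibility by an additive map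
  have htr : ∀ (f : MonoidAlgebra ℤ C ≃+ MonoidAlgebra ℤ C) (m : ℕ)
      (x : MonoidAlgebra ℤ C), (((r : ℕ) : MonoidAlgebra ℤ C) ^ m) ∣ x →
      (((r : ℕ) : MonoidAlgebra ℤ C) ^ m) ∣ f x := by
    intro f m x hx
    obtain ⟨y, rfl⟩ := hx
    refine ⟨f y, ?_⟩
    have : ∀ z : MonoidAlgebra ℤ C, ((r : ℕ) : MonoidAlgebra ℤ C) ^ m * z =
        (r ^ m) • z := by
      intro z
      rw [nsmul_eq_mul, Nat.cast_pow]
    rw [this, this, map_nsmul]
  have h6 : (((r : ℕ) : MonoidAlgebra ℤ C) ^ j) ∣ ψ (D - D') := htr ψ j _ g1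
  have h7 : (((r : ℕ) : MonoidAlgebra ℤ C) ^ (j + 1)) ∣
      ((r : ℕ) : MonoidAlgebra ℤ C) ^ 2 * ψ (D - D') := by
    have h8 := mul_dvd_mul (dvd_refl (((r : ℕ) : MonoidAlgebra ℤ C) ^ 2)) h6
    refine dvd_trans ?_ h8
    rw [← pow_add]
    exact pow_dvd_pow _ (by omega)
  have h9 : (((r : ℕ) : MonoidAlgebra ℤ C) ^ (j + 1)) ∣
      ((r : ℕ) : MonoidAlgebra ℤ C) * (D₁ - D₁') := by
    rw [pow_succ']
    exact mul_dvd_mul_left _ g2
  have hψs : ψ (D - D') = ψ D - ψ D' := map_sub ψ D D'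
  have h10 : (((r : ℕ) : MonoidAlgebra ℤ C) ^ (j + 1)) ∣
      MonoidAlgebra.of ℤ C c₀ * ψ (D - D') := by
    have h11 : MonoidAlgebra.of ℤ C c₀ * ψ (D - D') =
        MonoidAlgebra.of ℤ C c₀ * (D ^ r - D' ^ r) +
        ((r : ℕ) : MonoidAlgebra ℤ C) ^ 2 * ψ (D - D') -
        ((r : ℕ) : MonoidAlgebra ℤ C) * (D₁ - D₁') := by
      rw [mul_sub ((r : ℕ) : MonoidAlgebra ℤ C) D₁ D₁', h2, h3, hψs]
      ring
    rw [h11]
    exact dvd_sub (dvd_add (dvd_mul_of_dvd_right h5 _) h7) h9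
  have h12 : (((r : ℕ) : MonoidAlgebra ℤ C) ^ (j + 1)) ∣ ψ (D - D') := by
    have h13 : ψ (D - D') = MonoidAlgebra.of ℤ C c₀⁻¹ *
        (MonoidAlgebra.of ℤ C c₀ * ψ (D - D')) := by
      rw [← mul_assoc, ← map_mul, inv_mul_cancel, map_one, one_mul]
    rw [h13]
    exact dvd_mul_of_dvd_right h10 _
  have h14 := htr ψ.symm (j + 1) _ h12
  rw [AddEquiv.symm_apply_apply, ← Nat.cast_pow] at h14
  have h15 := dvd_coeff h14 k
  rw [MonoidAlgebra.coeff_sub, Finsupp.sub_apply, Nat.cast_pow] at h15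
  exact h15

lemma cop_of {n r : ℕ} (hr : r.Prime) (h : ¬ r ∣ n) : n.Coprime r :=
  (hr.coprime_iff_not_dvd.2 h).symm

/-- the step, with the instances used in `S_DEG` -/
lemma stepG {C : Type} [Group C] [Finite C] (hc : ∀ a b : C, a * b = b * a) {r j : ℕ}
    (hj : 1 ≤ j) (hcop : (Nat.card C).Coprime r) (c₀ : C) (D D' D₁ D₁' : MonoidAlgebra ℤ C)
    (h2 : (r : ℤ) • D₁ = MonoidAlgebra.of ℤ C c₀ *
      (D ^ r - MonoidAlgebra.mapDomain (fun c : C => c ^ r) D) +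
      ((r : ℤ) ^ 2) • MonoidAlgebra.mapDomain (fun c : C => c ^ r) D)
    (h3 : (r : ℤ) • D₁' = MonoidAlgebra.of ℤ C c₀ *
      (D' ^ r - MonoidAlgebra.mapDomain (fun c : C => c ^ r) D') +
      ((r : ℤ) ^ 2) • MonoidAlgebra.mapDomain (fun c : C => c ^ r) D')
    (hD : ∀ k, (r : ℤ) ^ j ∣ D.coeff k - D'.coeff k)
    (hD₁ : ∀ k, (r : ℤ) ^ j ∣ D₁.coeff k - D₁'.coeff k) (k : C) :
    (r : ℤ) ^ (j + 1) ∣ D.coeff k - D'.coeff k := by
  rename_i inst _
  letI J : CommGroup C := { inst with mul_comm := hc }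
  exact stepC (C := C) hj hcop c₀ D D' D₁ D₁' h2 h3 hD hD₁ k

lemma cp_comm (p : ℕ) [Fact p.Prime] (a b : Cp p) : a * b = b * a := by
  induction a using QuotientGroup.induction_on with
  | H a =>
    induction b using QuotientGroup.induction_on with
    | H b =>
      have hab : a * b = b * a := by
        apply Units.ext
        rw [Units.val_mul, Units.val_mul, mul_comm]
      rw [← QuotientGroup.mk_mul, ← QuotientGroup.mk_mul, hab]

theorem t_MCR : S_DEG → S_TRN → S_SYL → S_MCR := by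
  intro hDEG hTRN hSYL p r _ _ hpr hrC hyp G _ _ P k
  have hr : r.Prime := Fact.out
  have main : ∀ j : ℕ, 1 ≤ j → ∀ (G : Type) [Group G] [Fintype G] (P : Sylow p G) (k : Cp p),
      (r : ℤ) ^ j ∣ (DG p (Ip p G)).coeff k - (DG p (Ip p (NN (P : Subgroup G)))).coeff k := by
    intro j hj
    induction j, hj using Nat.le_induction with
    | base =>
      intro G _ _ P k
      rw [pow_one, dg_coeff p (ip_fin p), dg_coeff p (ip_fin p)]
      exact hyp G P k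
    | succ j hj ih =>
      intro G _ _ P k
      obtain ⟨P', hP'⟩ := hSYL G p r hpr P
      obtain ⟨e, -, -⟩ := hTRN G r (P : Subgroup G)
      haveI := fin_wc G r
      haveI : Fintype (Wc G r) := Fintype.ofFinite _
      haveI := fin_wc (NN (P : Subgroup G)) r
      haveI : Fintype (Wc (NN (P : Subgroup G)) r) := Fintype.ofFinite _
      have h1 := ih (Wc G r) P'
      have h2 := (hDEG G p r hpr).2
      have h3 := (hDEG (NN (P : Subgroup G)) p r hpr).2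
      have h4 : DG p (Ip p (NN (P' : Subgroup (Wc G r)))) =
          DG p (Ip p (Wc (NN (P : Subgroup G)) r)) := by
        rw [hP']
        exact (dg_iso p e).symm
      rw [h4] at h1
      exact stepG (cp_comm p) hj (cop_of hr hrC) (cls p r) _ _ _ _ h2 h3 (ih G P) h1 k
  have h0 : ((({χ | χ ∈ Ip p G ∧ dcl p χ = k} : Set (G → ℂ)).ncard : ℕ) : ℤ) -
      ((({χ | χ ∈ Ip p (NN (P : Subgroup G)) ∧ dcl p χ = k} :
        Set (NN (P : Subgroup G) → ℂ)).ncard : ℕ) : ℤ) = 0 := by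
    apply zero_of_dvd hr.two_le
    intro j hj
    have h1 := main j hj G P k
    rw [dg_coeff p (ip_fin p), dg_coeff p (ip_fin p)] at h1
    exact h1
  have h1 := sub_eq_zero.1 h0
  exact_mod_cast h1

end Pool.Agent.Q237.AM
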