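import Pool.Agent.Q237.AM.Bas

/-!
# Job MGR of project AM: the McKay-Galois equality modulo `r`
-/

set_option autoImplicit false

open scoped Classical

noncomputable section

namespace Pool.Agent.Q237.AM

open Pool.Agent.H254R3.IN hiding NN
open Pool.Agent.Q17.WR
open Pool.Agent.Q17.AM

lemma card_cy {r : ℕ} [Fact r.Prime] : (Finset.univ : Finset (Cy r)).card = r := by
  rw [Finset.card_univ, ← Nat.card_eq_fintype_card]
  change Nat.card (ZMod r) = r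
  exact Nat.card_zmod r

lemma nch_one {G : Type} [Group G] {r : ℕ} [Fact r.Prime] (f : Cy r → G → ℂ) :
    nch f 1 = (r : ℂ) * ∏ ω, f ω 1 := by
  unfold nch
  rw [if_pos SemidirectProduct.one_right]
  have h1 : ∀ a : Cy r, prf (fun ω => f (a * ω)) (1 : Wc G r).left = ∏ ω, f ω 1 := by
    intro a
    unfold prf
    exact Fintype.prod_equiv (Equiv.mulLeft a) _ _ (fun ω => rfl)
  rw [Finset.sum_congr rfl (fun a _ => h1 a), Finset.sum_const, nsmul_eq_mul]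
  rw [card_cy]

lemma cch_one {G : Type} [Group G] {r : ℕ} [Fact r.Prime] (θ : G → ℂ) (l : Cy r →* ℂˣ) :
    cch θ l 1 = θ 1 ^ r := by
  unfold cch
  rw [if_pos SemidirectProduct.one_right]
  have h1 : ∀ ω : Cy r, θ ((1 : Wc G r).left ω) = θ 1 := fun ω => rfl
  rw [Finset.prod_congr rfl (fun ω _ => h1 ω), Finset.prod_const]
  rw [card_cy]

/-- the characters of degree prime to `p` of the wreath product -/
lemma lx_ip (hCLS : S_CLS) {G : Type} [Group G] [Fintype G] {p r : ℕ} [hp : Fact p.Prime]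
    [hr : Fact r.Prime] (hpr : p ≠ r) : LX (r := r) (Ip p G) = Ip p (Wc G r) := by
  obtain ⟨c1, c2, c3, -⟩ := hCLS G r
  have hpr' : ¬ p ∣ r := fun h => hpr ((Nat.prime_dvd_prime_iff_eq hp.out hr.out).1 h)
  ext χ
  constructor
  · rintro (⟨f, hf, hn, rfl⟩ | ⟨θ, hθ, l, rfl⟩)
    · refine ⟨c1 f (fun ω => (hf ω).1) hn, ?_⟩
      choose n hn' hn'' using fun ω => (hf ω).2
      refine ⟨r * ∏ ω, n ω, ?_, ?_⟩
      · rw [nch_one]
        push_cast
        rw [Finset.prod_congr rfl (fun ω _ => hn' ω)]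
      · rw [hp.out.dvd_mul, not_or]
        refine ⟨hpr', ?_⟩
        rw [Prime.dvd_finset_prod_iff hp.out.prime]
        rintro ⟨ω, -, h⟩
        exact hn'' ω h
    · refine ⟨c2 θ hθ.1 l, ?_⟩
      obtain ⟨n, hn, hn'⟩ := hθ.2
      refine ⟨n ^ r, ?_, ?_⟩
      · rw [cch_one, ← hn]
        push_cast
        rfl
      · exact fun h => hn' (hp.out.dvd_of_dvd_pow h)
  · rintro ⟨h1, m, hm, hm'⟩
    rcases c3 χ h1 with ⟨f, hf, hn, rfl⟩ | ⟨θ, hθ, l, rfl⟩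
    · refine Or.inl ⟨f, fun ω => ⟨hf ω, ?_⟩, hn, rfl⟩
      choose n hn0 hn' using fun ω => (hf ω).deg
      refine ⟨n ω, hn' ω, fun h => hm' ?_⟩
      rw [nch_one] at hm
      have h2 : (m : ℂ) = ((r * ∏ ω, n ω : ℕ) : ℂ) := by
        rw [hm]
        push_cast
        rw [Finset.prod_congr rfl (fun ω _ => hn' ω)]
      have h3 : m = r * ∏ ω, n ω := by exact_mod_cast h2
      rw [h3]
      exact dvd_mul_of_dvd_right (dvd_trans h (Finset.dvd_prod_of_mem n (Finset.mem_univ ω))) _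
    · refine Or.inr ⟨θ, ⟨hθ, ?_⟩, l, rfl⟩
      obtain ⟨n, hn0, hn'⟩ := hθ.deg
      refine ⟨n, hn', fun h => hm' ?_⟩
      rw [cch_one] at hm
      have h2 : (m : ℂ) = ((n ^ r : ℕ) : ℂ) := by
        rw [hm, ← hn']
        push_cast
        rfl
      have h3 : m = n ^ r := by exact_mod_cast h2
      rw [h3]
      exact dvd_pow h hr.out.ne_zero

/-- Galois conjugates -/
lemma irr_gal {G : Type} [Group G] [Finite G] (s : ℂ ≃+* ℂ) (χ : G → ℂ) :
    IsIrr χ ↔ IsIrr (fun g => s (χ g)) := by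
  constructor
  · exact Pool.Agent.Y824.GA.S_IRR G s χ
  · intro h
    have h1 := Pool.Agent.Y824.GA.S_IRR G s.symm _ h
    have h2 : (fun g => s.symm (s (χ g))) = χ := by
      funext g
      rw [s.symm_apply_apply]
    rw [h2] at h1
    exact h1

lemma ip_gal {p : ℕ} {G : Type} [Group G] [Finite G] (s : ℂ ≃+* ℂ) (χ : G → ℂ) :
    χ ∈ Ip p G ↔ (fun g => s (χ g)) ∈ Ip p G := by
  constructor
  · rintro ⟨h1, n, h2, h3⟩
    refine ⟨(irr_gal s χ).1 h1, n, ?_, h3⟩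
    change _ = s (χ 1)
    rw [← h2, map_natCast]
  · rintro ⟨h1, n, h2, h3⟩
    refine ⟨(irr_gal s χ).2 h1, n, ?_, h3⟩
    change _ = s (χ 1) at h2
    apply s.injective
    rw [← h2, map_natCast]

/-- the fixed characters depend only on the action on roots of unity -/
lemma fxd_congr (hGV : S_GV) {G : Type} [Group G] [Fintype G] {X : Set (G → ℂ)}
    (hX : ∀ χ ∈ X, IsIrr χ) {s t : ℂ ≃+* ℂ} {n : ℕ} (hn : Nat.card G ∣ n)
    (h : ∀ ζ : ℂ, ζ ^ n = 1 → s ζ = t ζ) : Fxd X s = Fxd X t := by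
  have h0 : ∀ ζ : ℂ, ζ ^ Nat.card G = 1 → s ζ = t ζ := by
    intro ζ hζ
    obtain ⟨m, rfl⟩ := hn
    exact h ζ (by rw [pow_mul, hζ, one_pow])
  ext χ
  constructor
  · rintro ⟨h1, h2⟩
    refine ⟨h1, fun g => ?_⟩
    rw [← hGV.1 G χ (hX χ h1) s t h0 g]
    exact h2 g
  · rintro ⟨h1, h2⟩
    refine ⟨h1, fun g => ?_⟩
    rw [hGV.1 G χ (hX χ h1) s t h0 g]
    exact h2 g

lemma fix_pow {t : ℂ ≃+* ℂ} {ζ : ℂ} (h : t ζ = ζ) (k : ℕ) : (t ^ k) ζ = ζ := by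
  induction k with
  | zero => rfl
  | succ k ih =>
    rw [pow_succ]
    change (t ^ k) (t ζ) = ζ
    rw [h, ih]

lemma rp_pow {s : ℂ ≃+* ℂ} {r n : ℕ} (h : Rp s r n) (v : ℕ) : Rp (s ^ v) r n := by
  obtain ⟨j, hj, h1⟩ := h
  refine ⟨j, hj, fun ζ hζ => ?_⟩
  rw [← pow_mul, mul_comm, pow_mul]
  exact fix_pow (h1 ζ hζ) v

lemma agree_pow {s t : ℂ ≃+* ℂ} {n : ℕ} (h : ∀ ζ : ℂ, ζ ^ n = 1 → s ζ = t ζ) (k : ℕ) :
    ∀ ζ : ℂ, ζ ^ n = 1 → (s ^ k) ζ = (t ^ k) ζ := by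
  induction k with
  | zero => intro ζ _; rfl
  | succ k ih =>
    intro ζ hζ
    rw [pow_succ, pow_succ]
    change (s ^ k) (s ζ) = (t ^ k) (t ζ)
    rw [h ζ hζ]
    exact ih _ (by rw [← map_pow, hζ, map_one])

lemma fxd_iso {H K : Type} [Group H] [Group K] (e : H ≃* K) {A : Set (H → ℂ)}
    {B : Set (K → ℂ)} (h : ∀ χ : K → ℂ, χ ∈ B ↔ (fun x => χ (e x)) ∈ A) (s : ℂ ≃+* ℂ) :
    (Fxd A s).ncard = (Fxd B s).ncard := by
  apply ncard_iso e
  intro χ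
  constructor
  · rintro ⟨h1, h2⟩
    exact ⟨(h χ).1 h1, fun x => h2 (e x)⟩
  · rintro ⟨h1, h2⟩
    refine ⟨(h χ).2 h1, fun y => ?_⟩
    have := h2 (e.symm y)
    simpa using this

/-- arithmetic of the step -/
lemma step_num {r j : ℕ} {a b a₂ b₂ a' b' c : ℤ} (hj : 1 ≤ j)
    (hc : (r : ℤ) ∣ c) (ha : (r : ℤ) * a' = a ^ r + (r - 1) * a₂ + c * a)
    (hb : (r : ℤ) * b' = b ^ r + (r - 1) * b₂ + c * b)
    (h : (r : ℤ) ^ j ∣ a - b) (h' : (r : ℤ) ^ j ∣ a' - b') : (r : ℤ) ^ (j + 1) ∣ a₂ - b₂ := by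
  have h1 : (r : ℤ) ^ (j + 1) ∣ a ^ r - b ^ r := pow_sub_dvd hj h
  have h2 : (r : ℤ) ^ (j + 1) ∣ (r : ℤ) * (a' - b') := by
    rw [pow_succ']
    exact mul_dvd_mul_left _ h'
  have h3 : (r : ℤ) ^ (j + 1) ∣ c * (a - b) := by
    rw [pow_succ']
    exact mul_dvd_mul hc h
  have h4 : (r : ℤ) ^ (j + 1) ∣ (r - 1) * (a₂ - b₂) := by
    have h5 : ((r : ℤ) - 1) * (a₂ - b₂) = (r : ℤ) * (a' - b') - (a ^ r - b ^ r) - c * (a - b) := by
      rw [mul_sub (r : ℤ) a' b', ha, hb]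
      ring
    rw [h5]
    exact dvd_sub (dvd_sub h2 h1) h3
  have h5 : IsCoprime ((r : ℤ) ^ (j + 1)) ((r : ℤ) - 1) := by
    refine IsCoprime.pow_left ?_
    exact ⟨1, -1, by ring⟩
  exact h5.dvd_of_dvd_mul_left h4

theorem t_MGR : S_CLS → S_NUM → S_TRN → S_SYL → S_GV → S_MGR := by
  intro hCLS hNUM hTRN hSYL hGV p r _ _ hpr S hS hyp G _ _ P s hs hRp
  have hr : r.Prime := Fact.out
  have main : ∀ j : ℕ, 1 ≤ j → ∀ (G : Type) [Group G] [Fintype G] (P : Sylow p G), ∀ s ∈ S,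
      Rp s r (Nat.card G) →
      (r : ℤ) ^ j ∣ ((Fxd (Ip p G) s).ncard : ℤ) -
        ((Fxd (Ip p (NN (P : Subgroup G))) s).ncard : ℤ) := by
    intro j hj
    induction j, hj using Nat.le_induction with
    | base =>
      intro G _ _ P s hs hRp
      rw [pow_one]
      exact hyp G P s hs hRp
    | succ j hj ih =>
      intro G _ _ P s hs hRp
      obtain ⟨P', hP'⟩ := hSYL G p r hpr P
      obtain ⟨e, -, -⟩ := hTRN G r (P : Subgroup G)
      haveI := fin_wc G r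
      haveI : Fintype (Wc G r) := Fintype.ofFinite _
      haveI := fin_wc (NN (P : Subgroup G)) r
      haveI : Fintype (Wc (NN (P : Subgroup G)) r) := Fintype.ofFinite _
      have hG0 : 0 < Nat.card G := Nat.card_pos
      have hN0 : 0 < Nat.card (Wc G r) := Nat.card_pos
      obtain ⟨v, hv⟩ := hGV.2.2 s r (Nat.card G) hG0 hRp
      have hdvd : Nat.card G ∣ Nat.card (Wc G r) := by
        rw [card_wc]
        exact dvd_mul_of_dvd_left (dvd_pow_self _ hr.ne_zero) _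
      obtain ⟨u, hu, hu'⟩ := hGV.2.1 (s ^ v) r (Nat.card G) (Nat.card (Wc G r)) hN0 hdvd
        (rp_pow hRp v)
      have hNd : Nat.card (NN (P : Subgroup G)) ∣ Nat.card G := Subgroup.card_subgroup_dvd_card _
      have hsr : ∀ ζ : ℂ, ζ ^ Nat.card G = 1 → (((s ^ v) ^ u) ^ r) ζ = s ζ := fun ζ hζ => by
        rw [agree_pow hu r ζ hζ, hv ζ hζ]
      -- the hypothesis for the wreath product
      have h1 := ih (Wc G r) P' ((s ^ v) ^ u) (hS _ (hS s hs v) u) hu'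
      have h4 : (Fxd (Ip p (NN (P' : Subgroup (Wc G r)))) ((s ^ v) ^ u)).ncard =
          (Fxd (Ip p (Wc (NN (P : Subgroup G)) r)) ((s ^ v) ^ u)).ncard := by
        rw [hP']
        exact (fxd_iso e (fun χ => ip_iso e χ) _).symm
      rw [h4, ← lx_ip hCLS hpr, ← lx_ip hCLS hpr] at h1
      -- the hypothesis for the group
      have h0 := ih G P (s ^ v) (hS s hs v) (rp_pow hRp v)
      have n1 := hNUM G r (Ip p G) (fun χ hχ => hχ.1) ((s ^ v) ^ u) (fun χ => ip_gal _ χ)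
      have n2 := hNUM (NN (P : Subgroup G)) r (Ip p _) (fun χ hχ => hχ.1) ((s ^ v) ^ u)
        (fun χ => ip_gal _ χ)
      rw [fxd_congr hGV (fun χ hχ => hχ.1) dvd_rfl hsr,
        fxd_congr hGV (X := Ip p G) (fun χ hχ => hχ.1) dvd_rfl hu] at n1
      rw [fxd_congr hGV (fun χ hχ => hχ.1) hNd hsr,
        fxd_congr hGV (X := Ip p (NN (P : Subgroup G))) (fun χ hχ => hχ.1) hNd hu] at n2
      by_cases hz : ∀ ζ : ℂ, ζ ^ r = 1 → ((s ^ v) ^ u) ζ = ζ
      · rw [if_pos hz] at n1 n2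
        exact step_num (c := (r : ℤ) * (r - 1)) hj (dvd_mul_right _ _) n1 n2 h0 h1
      · rw [if_neg hz] at n1 n2
        refine step_num (c := 0) hj (dvd_zero _) ?_ ?_ h0 h1
        · rw [n1, zero_mul]
        · rw [n2, zero_mul]
  have h0 : (((Fxd (Ip p G) s).ncard : ℕ) : ℤ) -
      (((Fxd (Ip p (NN (P : Subgroup G))) s).ncard : ℕ) : ℤ) = 0 := by
    apply zero_of_dvd hr.two_le
    intro j hj
    exact main j hj G P s hs hRp
  have h1 := sub_eq_zero.1 h0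
  exact_mod_cast h1

end Pool.Agent.Q237.AM
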