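import Pool.Agent.Q17.AM.Stm4
import Pool.Agent.Y824.GA.Irr

/-!
# Basic lemmas for the jobs MGR, MCR, REA of project AM
-/

set_option autoImplicit false

open scoped Classical

noncomputable section

namespace Pool.Agent.Q237.AM

open Pool.Agent.H254R3.IN hiding NN
open Pool.Agent.Q17.WR
open Pool.Agent.Q17.AM
open Pool.Agent.Helper884

lemma irr_fin {G : Type} [Group G] [Fintype G] : ({χ : G → ℂ | IsIrr χ}).Finite :=
  (IC.Irr G).finite_toSet.subset fun _ hχ => Finset.mem_coe.mpr (mem_Irr.mpr hχ)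

lemma ip_fin (p : ℕ) {G : Type} [Group G] [Fintype G] : (Ip p G).Finite :=
  irr_fin.subset fun _ hχ => hχ.1

/-- functions on isomorphic groups -/
lemma ncard_iso {H K : Type} [Group H] [Group K] (e : H ≃* K) {A : Set (H → ℂ)}
    {B : Set (K → ℂ)} (h : ∀ χ : K → ℂ, χ ∈ B ↔ (fun x => χ (e x)) ∈ A) : A.ncard = B.ncard := by
  have h1 : A = (fun (χ : K → ℂ) (x : H) => χ (e x)) '' B := by
    ext θ
    constructor
    · intro hθ
      refine ⟨fun y => θ (e.symm y), ?_, ?_⟩
      · rw [h]
        have : (fun x => θ (e.symm (e x))) = θ := by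
          funext x
          rw [e.symm_apply_apply]
        rw [this]
        exact hθ
      · funext x
        change θ (e.symm (e x)) = θ x
        rw [e.symm_apply_apply]
    · rintro ⟨χ, hχ, rfl⟩
      exact (h χ).1 hχ
  rw [h1]
  apply Set.ncard_image_of_injective
  intro χ χ' hh
  funext y
  have := congrFun hh (e.symm y)
  simpa using this

lemma irr_iso {H K : Type} [Group H] [Group K] (e : H ≃* K) (χ : K → ℂ) :
    IsIrr χ ↔ IsIrr (fun x => χ (e x)) := by
  constructor
  · intro h
    exact Pool.Agent.Y62.irr_comp h e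
  · intro h
    have h1 := Pool.Agent.Y62.irr_comp h e.symm
    have h2 : (fun y => χ (e (e.symm y))) = χ := by
      funext y
      rw [e.apply_symm_apply]
    rw [h2] at h1
    exact h1

lemma ip_iso {p : ℕ} {H K : Type} [Group H] [Group K] (e : H ≃* K) (χ : K → ℂ) :
    χ ∈ Ip p K ↔ (fun x => χ (e x)) ∈ Ip p H := by
  constructor
  · rintro ⟨h1, n, h2, h3⟩
    refine ⟨(irr_iso e χ).1 h1, n, ?_, h3⟩
    change _ = χ (e 1)
    rw [map_one]
    exact h2
  · rintro ⟨h1, n, h2, h3⟩
    refine ⟨(irr_iso e χ).2 h1, n, ?_, h3⟩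
    change _ = χ (e 1) at h2
    rw [map_one] at h2
    exact h2

/-- finiteness of the wreath product -/
lemma fin_wc (G : Type) [Group G] [Finite G] (r : ℕ) [Fact r.Prime] : Finite (Wc G r) :=
  Finite.of_equiv _ (SemidirectProduct.equivProd).symm

lemma card_wc (G : Type) [Group G] [Finite G] (r : ℕ) [Fact r.Prime] :
    Nat.card (Wc G r) = Nat.card G ^ r * r := by
  rw [Nat.card_congr SemidirectProduct.equivProd, Nat.card_prod, Nat.card_fun]
  have h1 : Nat.card (Cy r) = r := by
    change Nat.card (ZMod r) = r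
    exact Nat.card_zmod r
  rw [h1]

end Pool.Agent.Q237.AM
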